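import Pool.Agent.W114.PQ.Stm
import Pool.Agent.H951R4.OD.M

/-!
# Project LA: the axioms for the tests `n = 1 (mod q)`
-/

set_option autoImplicit false

namespace Pool.Agent.Y785.LA

open Finset Filter Topology Pool.Agent.W114.PQ
open Pool.Agent.H951R4.OD (ch PI Ex)

theorem per_aux (q n : ℕ) : ((n + q ^ 2 : ℕ) : ZMod q) = 1 ↔ (n : ZMod q) = 1 := by
  push_cast
  rw [ZMod.natCast_self]
  simp

theorem cnt_aux (q : ℕ) (hq : q.Prime) (inst : DecidablePred fun n : ℕ => (n : ZMod q) = 1) :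
    ((range (q ^ 2)).filter (fun n : ℕ => (n : ZMod q) = 1)).card = q := by
  have h := Nat.count_modEq_card (q ^ 2) hq.pos 1
  rw [Nat.count_eq_card_filter_range] at h
  have e : (range (q ^ 2)).filter (fun n : ℕ => (n : ZMod q) = 1) =
      (range (q ^ 2)).filter (fun n : ℕ => n ≡ 1 [MOD q]) := by
    apply Finset.filter_congr
    intro n _
    have := ZMod.natCast_eq_natCast_iff n 1 q
    rw [Nat.cast_one] at this
    exact this
  rw [e, h, sq, Nat.mul_div_cancel _ hq.pos, Nat.mul_mod_left]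
  simp

theorem ax_core (D : Dat) (b : ℝ) (hb : b = 0 ∨ b = 1) (h1 : D.c0 = 2) (h2 : D.m = 1)
    (h3 : D.e = 0) (h4 : D.Δ = -1) (h5 : D.κ = 1) (h6 : D.τ = 1) (h7 : D.β = b)
    (h8 : D.ρ = fun _ => 1) (h9 : D.T = fun q n : ℕ => (n : ZMod q) = 1) : Ax D where
  c0_pos := by rw [h1]; norm_num
  two := by rw [h1]
  m_odd := by rw [h2]; exact odd_one
  e01 := Or.inl h3
  neg := by rw [h4]; norm_num
  κ1 := h5.ge
  τ1 := h6.ge
  β01 := by rw [h7]; exact hb
  rho_low := by
    intro q _ _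
    rw [h3, h8]
    simp
  rho_up := by
    intro q
    rw [h8, h5]
    norm_num
  per := by
    intro q n _
    rw [h9]
    exact per_aux q n
  ord := by
    intro q n _ _ hT
    rw [h9] at hT
    rw [h2, pow_one]
    exact hT
  cnt := by
    intro q hq _
    have hc : ∀ (T : ℕ → ℕ → Prop) (inst : DecidablePred fun n : ℕ => T q n),
        T = (fun q n : ℕ => (n : ZMod q) = 1) →
        ((range (q ^ 2)).filter (fun n : ℕ => T q n)).card = q := by
      intro T inst hT
      subst hT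
      exact cnt_aux q hq _
    rw [hc D.T _ h9, h8, h5]
    simp
  mert := by
    obtain ⟨C1, hC1, h⟩ := Pool.Agent.H951R4.OD.mert_int
    refine ⟨C1, fun y z hy hyz => ?_⟩
    rw [h8, h6, one_mul]
    exact h y z hy hyz

end Pool.Agent.Y785.LA
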