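import Pool.Agent.Y732.LA.Stm
import Pool.Agent.Y785.LA.AX0

set_option autoImplicit false

namespace Pool.Agent.Y785.LA

open Pool.Agent.Y732.LA

/-- **AX** -/
theorem ax : S_AX :=
  ⟨ax_core (datT 0) 0 (Or.inl rfl) rfl rfl rfl rfl rfl rfl rfl rfl rfl,
    ax_core (datT 1) 1 (Or.inr rfl) rfl rfl rfl rfl rfl rfl rfl rfl rfl⟩

end Pool.Agent.Y785.LA
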